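import Pool.Agent.MWLQ.StmtsB

/-! # Row I2R of block MWLQ: `I2` from the crossing of one residue -/

namespace Pool.Agent.MWLQ.H30

open Pool.Agent.Helper14_MV
open Pool.Agent.Helper2_MV
open Pool.Agent.MWLQ

section
variable {n : ℕ} {β : FIC}

theorem fm_rep (g : ℕ → List ℕ) (m c x : ℕ) (h : g c = [x]) :
    (List.replicate m c).flatMap g = List.replicate m x := by
  induction m with
  | zero => rfl
  | succ m ih => rw [List.replicate_succ, List.flatMap_cons, ih, h, List.replicate_succ]; rfl

theorem pwx (hg : MWGP.GapStmt) (ga : MWZ.Ga n (RR β)) (rn : MWGP.Rn n (RR β)) (A Q : List ℕ)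
    (x e : ℕ) (hx : x ∈ A) (he : 1 ≤ e) :
    RR β (A ++ (List.replicate e x ++ Q)) (A ++ (List.replicate (e + n) x ++ Q)) := by
  obtain ⟨e0, rfl⟩ : ∃ e0, e = e0 + 1 := ⟨e - 1, by omega⟩
  have h := (hg n β ga rn (A ++ List.replicate e0 x) Q x x (List.mem_append_left _ hx)).1
  have a1 : (A ++ List.replicate e0 x) ++ x :: Q = A ++ (List.replicate (e0 + 1) x ++ Q) := by
    rw [List.replicate_add e0 1]
    simp
  have a2 : (A ++ List.replicate e0 x) ++ (List.replicate (n + 1) x ++ Q) =
      A ++ (List.replicate (e0 + 1 + n) x ++ Q) := by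
    have : e0 + 1 + n = e0 + (n + 1) := by ring
    rw [this, List.replicate_add e0 (n + 1), List.append_assoc, List.append_assoc]
  rw [a1, a2] at h
  exact h

theorem crs (hR : RR β [0, 0, 0, 1, 0, 2, 1] [0, 0, 1, 0, 0, 2, 1]) (A R1 R2 : List ℕ)
    (x y a b : ℕ) (ha : 2 ≤ a) (hb : 1 ≤ b) :
    RR β (A ++ (List.replicate (a + 1) x ++ y :: (List.replicate b x ++ (R1 ++ y :: R2))))
      (A ++ (List.replicate a x ++ y :: (List.replicate (b + 1) x ++ (R1 ++ y :: R2)))) := by
  obtain ⟨i, rfl⟩ : ∃ i, a = i + 2 := ⟨a - 2, by omega⟩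
  obtain ⟨j, rfl⟩ : ∃ j, b = 1 + j := ⟨b - 1, by omega⟩
  have h := hR.sub (fun c => if c = 0 then [x] else if c = 1 then [y]
    else List.replicate j x ++ R1)
  have h2 := ((RR.refl (A ++ List.replicate i x)).append h).append (RR.refl (β := β) R2)
  have a1 : (A ++ List.replicate i x) ++ ([0, 0, 0, 1, 0, 2, 1] : List ℕ).flatMap
      (fun c => if c = 0 then [x] else if c = 1 then [y] else List.replicate j x ++ R1) ++ R2 =
      A ++ (List.replicate (i + 2 + 1) x ++ y :: (List.replicate (1 + j) x ++ (R1 ++ y :: R2))) := by
    have e1 : i + 2 + 1 = i + 3 := by ring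
    rw [e1, List.replicate_add i 3, List.replicate_add 1 j]
    simp
  have a2 : (A ++ List.replicate i x) ++ ([0, 0, 1, 0, 0, 2, 1] : List ℕ).flatMap
      (fun c => if c = 0 then [x] else if c = 1 then [y] else List.replicate j x ++ R1) ++ R2 =
      A ++ (List.replicate (i + 2) x ++ y :: (List.replicate (1 + j + 1) x ++ (R1 ++ y :: R2))) := by
    have e1 : 1 + j + 1 = 2 + j := by ring
    rw [e1, List.replicate_add i 2, List.replicate_add 2 j]
    simp
  rw [a1, a2] at h2
  exact h2

theorem stp (hn : 1 ≤ n) (hg : MWGP.GapStmt) (ga : MWZ.Ga n (RR β)) (rn : MWGP.Rn n (RR β))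
    (hI : MWGQ.It n (RR β)) (hR : RR β [0, 0, 0, 1, 0, 2, 1] [0, 0, 1, 0, 0, 2, 1])
    (p c d q : List ℕ) (x y : ℕ)
    (hM : ∀ z ∈ c ++ y :: d, 2 ≤ (p ++ x :: (c ++ y :: x :: (d ++ x :: q))).count z) :
    RR β (p ++ x :: (c ++ y :: x :: (d ++ x :: q)))
      (p ++ x :: (c ++ x :: y :: (d ++ x :: q))) := by
  by_cases hxy : y = x
  · rw [hxy]
    exact RR.refl _
  have hxA : x ∈ p ++ x :: c := by simp
  by_cases hy : y ∈ p ++ x :: c
  · have h := (hg n β ga rn (p ++ x :: c) (d ++ x :: q) y x hy).2 hxA
    simpa only [List.append_assoc, List.cons_append] using h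
  · -- `y` occurs later
    have hyR : y ∈ d ++ x :: q := by
      by_contra hno
      have h1 := hM y (by simp)
      have h2 : p ++ x :: (c ++ y :: x :: (d ++ x :: q)) =
          (p ++ x :: c) ++ ([y, x] ++ (d ++ x :: q)) := by simp
      have h3 : ([y, x] : List ℕ).count y = 1 := by
        rw [List.count_cons_self, List.count_eq_zero.2]
        simp [hxy]
      have h4 := List.count_append (a := y) (l₁ := p ++ x :: c) (l₂ := [y, x] ++ (d ++ x :: q))
      have h5 := List.count_append (a := y) (l₁ := [y, x]) (l₂ := d ++ x :: q)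
      rw [List.count_eq_zero.2 hy] at h4
      rw [h3, List.count_eq_zero.2 hno] at h5
      rw [h2] at h1
      omega
    obtain ⟨R1, R2, hR12⟩ := List.append_of_mem hyR
    -- (a)
    have sa : RR β (p ++ x :: (c ++ y :: x :: (d ++ x :: q)))
        ((p ++ x :: c) ++ (List.replicate n x ++ y :: x :: (d ++ x :: q))) := by
      have h := hI p c [y] (d ++ x :: q) x (by
        intro z hz
        have h1 := hM z (by
          rw [List.mem_append, List.mem_singleton] at hz
          rw [List.mem_append, List.mem_cons]
          tauto)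
        simpa only [List.cons_append, List.nil_append] using h1)
      simpa only [List.append_assoc, List.cons_append, List.nil_append] using h
    -- (b)
    have sb := pwx hg ga rn (p ++ x :: c) (y :: x :: (d ++ x :: q)) x n hxA hn
    -- (c)
    have sc : RR β ((p ++ x :: c) ++ (List.replicate (n + n) x ++ y :: x :: (d ++ x :: q)))
        ((p ++ x :: c) ++ (List.replicate (n + n) x ++
          y :: (List.replicate (n + 1) x ++ (d ++ x :: q)))) := by
      have h := pwx hg ga rn ((p ++ x :: c) ++ (List.replicate (n + n) x ++ [y])) (d ++ x :: q) x 1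
        (List.mem_append_left _ hxA) (le_refl _)
      rw [Nat.add_comm 1 n] at h
      simpa only [List.append_assoc, List.cons_append, List.nil_append, List.replicate_one] using h
    -- (d)
    have sd : RR β ((p ++ x :: c) ++ (List.replicate (n + n) x ++
          y :: (List.replicate (n + 1) x ++ (d ++ x :: q))))
        ((p ++ x :: c) ++ (List.replicate (n + n + 1) x ++
          y :: (List.replicate n x ++ (d ++ x :: q)))) := by
      have h := (crs hR (p ++ x :: c) R1 R2 x y (n + n) n (by omega) hn).symm
      rw [← hR12] at h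
      exact h
    -- (e)
    have se : RR β ((p ++ x :: c) ++ (List.replicate (n + n + 1) x ++
          y :: (List.replicate n x ++ (d ++ x :: q))))
        ((p ++ x :: c) ++ (List.replicate (n + n + 1) x ++ y :: (d ++ x :: q))) := by
      have h := (hI ((p ++ x :: c) ++ List.replicate (n + n) x) [y] d q x (by
        intro z hz
        have h1 := hM z (by
          rw [List.mem_append, List.mem_singleton] at hz
          rw [List.mem_append, List.mem_cons]
          tauto)
        by_cases hzx : z = x
        · subst hzx
          simp only [List.count_append, List.count_cons_self]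
          omega
        · have hxz : ¬ (x = z) := fun h => hzx h.symm
          simp only [List.count_append, List.count_cons, beq_iff_eq, hxz, if_false,
            List.count_nil, List.cons_append, List.nil_append] at h1 ⊢
          omega)).symm
      have e1 : List.replicate (n + n + 1) x = List.replicate (n + n) x ++ [x] := by
        rw [List.replicate_add]
        rfl
      rw [e1]
      simpa only [List.append_assoc, List.cons_append, List.nil_append] using h
    -- (f)
    have sf : RR β ((p ++ x :: c) ++ (List.replicate (n + n + 1) x ++ y :: (d ++ x :: q)))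
        (p ++ x :: (c ++ x :: y :: (d ++ x :: q))) := by
      have h1 := pwx hg ga rn (p ++ x :: c) (y :: (d ++ x :: q)) x 1 hxA (le_refl _)
      have h2 := pwx hg ga rn (p ++ x :: c) (y :: (d ++ x :: q)) x (1 + n) hxA (by omega)
      have e1 : 1 + n + n = n + n + 1 := by ring
      rw [e1] at h2
      have h3 := β.trans h1 h2
      have h4 : RR β ((p ++ x :: c) ++ (List.replicate (n + n + 1) x ++ y :: (d ++ x :: q)))
        ((p ++ x :: c) ++ (List.replicate 1 x ++ y :: (d ++ x :: q))) := RR.symm h3
      simpa only [List.append_assoc, List.cons_append, List.nil_append, List.replicate_one] using h4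
    exact β.trans sa (β.trans sb (β.trans sc (β.trans sd (β.trans se sf))))

end

theorem i2r (hg : MWGP.GapStmt) : I2rStmt := by
  intro n β hn _ ga rn hI hR p c
  induction c using List.reverseRecOn with
  | nil =>
    intro d q x _
    exact RR.refl _
  | append_singleton c y ih =>
    intro d q x hM
    have e1 : p ++ x :: ((c ++ [y]) ++ x :: (d ++ x :: q)) =
        p ++ x :: (c ++ y :: x :: (d ++ x :: q)) := by simp
    have hM' : ∀ z ∈ c ++ y :: d, 2 ≤ (p ++ x :: (c ++ y :: x :: (d ++ x :: q))).count z := by
      intro z hz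
      rw [← e1]
      refine hM z ?_
      simpa only [List.append_assoc, List.cons_append, List.nil_append] using hz
    have s1 := stp hn hg ga rn hI hR p c d q x y hM'
    have s2 := ih (y :: d) q x (by
      intro z hz
      have h := hM' z hz
      have e2 : (p ++ x :: (c ++ x :: ((y :: d) ++ x :: q))).Perm
          (p ++ x :: (c ++ y :: x :: (d ++ x :: q))) := by
        refine List.Perm.append_left _ (List.Perm.cons _ (List.Perm.append_left _ ?_))
        exact List.Perm.swap _ _ _
      rw [e2.count_eq]
      exact h)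
    rw [e1]
    have e3 : p ++ x :: x :: ((c ++ [y]) ++ (d ++ x :: q)) =
        p ++ x :: x :: (c ++ ((y :: d) ++ x :: q)) := by simp
    rw [e3]
    exact β.trans s1 s2

end Pool.Agent.MWLQ.H30

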